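import Pool.Agent.helper62.DP8.Spec

set_option autoImplicit false

namespace Pool.Agent.helper62.DP8

theorem BIG_per {V : Type} (g : ℕ) (u : ℕ → V) (h : ∀ i, u (i + g) = u i) (i : ℕ) : u (i % g) = u i := by
  have key : ∀ m r : ℕ, u (r + g * m) = u r := by
    intro m
    induction m with
    | zero => intro r; simp
    | succ m ih =>
      intro r
      have : r + g * (m + 1) = (r + g * m) + g := by ring
      rw [this, h, ih]
  have h2 := key (i / g) (i % g)
  rw [Nat.mod_add_div] at h2
  exact h2.symm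

theorem BIG_ne {V : Type} (g : ℕ) (u : ℕ → V) (hg : 9 ≤ g) (h : ∀ i, u (i + g) = u i)
    (inj : ∀ i < g, ∀ j < g, u i = u j → i = j) (i k : ℕ) (h1 : 1 ≤ k) (h2 : k < g) : u i ≠ u (i + k) := by
  intro he
  rw [← BIG_per g u h i, ← BIG_per g u h (i + k)] at he
  have h3 := inj _ (Nat.mod_lt _ (by omega)) _ (Nat.mod_lt _ (by omega)) he
  have h4 : (i + 0) % g = (i + k) % g := by simpa using h3
  have h5 : (0 : ℕ) ≡ k [MOD g] := Nat.ModEq.add_left_cancel' i h4
  have h6 : g ∣ k := (Nat.modEq_zero_iff_dvd).1 h5.symm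
  have h7 := Nat.le_of_dvd (by omega) h6
  omega

theorem BIG (hCHD : CHD_stmt) (hPEN : PEN_stmt) (hCLP : CLP_stmt) (hABH : ABH_stmt) (hEXT : EXT_stmt)
    (hDG9 : DG9_stmt) (hGOA : GOA_stmt) : BIG_stmt := by
  classical
  intro V _ G g u hg hconn hGir hCub hCy
  obtain ⟨p, hpp, hup, hne, hnb⟩ := hPEN V G g u (by omega) hGir hCub hCy
  have hclp := hCLP V G g u p hg hGir hCy hup hne
  have hune : ∀ i k, 1 ≤ k → k < g → u i ≠ u (i + k) := BIG_ne g u hg hCy.per hCy.inj
  have hpne : ∀ i k, 1 ≤ k → k < g → p i ≠ p (i + k) := fun i k h1 h2 => (hclp i k h1 h2).1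
  -- the neighbours of u i
  have nbr : ∀ i w, G.Adj (u i) w → w = u (i + (g - 1)) ∨ w = u (i + 1) ∨ w = p i := by
    intro i w hw
    have e1 : u (i + (g - 1) + 1) = u i := by
      have : i + (g - 1) + 1 = i + g := by omega
      rw [this, hCy.per]
    have h1 := hnb (i + (g - 1)) w (by rw [e1]; exact hw)
    have e2 : u (i + (g - 1) + 2) = u (i + 1) := by
      have : i + (g - 1) + 2 = (i + 1) + g := by omega
      rw [this, hCy.per]
    have e3 : p (i + (g - 1) + 1) = p i := by
      have : i + (g - 1) + 1 = i + g := by omega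
      rw [this, hpp]
    rw [e2, e3] at h1
    exact h1
  have hpnb : ∀ i j, G.Adj (u j) (p i) → p i = p j := by
    intro i j h
    rcases nbr j _ h with h | h | h
    · exact absurd h.symm (hne _ _)
    · exact absurd h.symm (hne _ _)
    · exact h
  have hpinj : ∀ i < g, ∀ j < g, p i = p j → i = j := by
    intro i hi j hj h
    rcases lt_trichotomy i j with h1 | h1 | h1
    · exfalso
      have h2 := hpne i (j - i) (by omega) (by omega)
      rw [show i + (j - i) = j by omega] at h2
      exact h2 h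
    · exact h1
    · exfalso
      have h2 := hpne j (i - j) (by omega) (by omega)
      rw [show j + (i - j) = i by omega] at h2
      exact h2 h.symm
  have hpos : ∀ i, (sq G).Adj (u i) (u (i + 1)) ∧ (sq G).Adj (u i) (u (i + 2)) ∧ (sq G).Adj (p (i + 1)) (u i) ∧
      (sq G).Adj (p (i + 1)) (u (i + 1)) ∧ (sq G).Adj (p (i + 1)) (u (i + 2)) := by
    intro i
    have a1 := hCy.adj i
    have a2 := hCy.adj (i + 1)
    have a3 := hup (i + 1)
    refine ⟨⟨hune i 1 le_rfl (by omega), Or.inl a1⟩, ⟨hune i 2 (by omega) (by omega), Or.inr ⟨_, a1, a2⟩⟩,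
      ⟨(hne _ _).symm, Or.inr ⟨_, a3.symm, a1.symm⟩⟩, ⟨(hne _ _).symm, Or.inl a3.symm⟩,
      ⟨(hne _ _).symm, Or.inr ⟨_, a3.symm, a2⟩⟩⟩
  have hN1 : ∀ i k, 3 ≤ k → k + 3 ≤ g → ¬ (sq G).Adj (u i) (u (i + k)) := by
    intro i k hk1 hk2 hadj
    rcases hadj.2 with h | ⟨c, h1, h2⟩
    · exact hCHD V G g u (by omega) hGir hCy i k (by omega) (by omega) h
    · rcases nbr i c h1 with e1 | e1 | e1 <;> rcases nbr (i + k) c h2.symm with e2 | e2 | e2
      · have h3 := hune (i + (g - 1)) k (by omega) (by omega)
        apply h3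
        rw [← e1, e2]
        congr 1; omega
      · have h3 := hune (i + (g - 1)) (k + 2) (by omega) (by omega)
        apply h3
        rw [← e1, e2]
        rw [show i + (g - 1) + (k + 2) = i + k + 1 + g by omega, hCy.per]
      · exact hne _ _ (e1.symm.trans e2)
      · have h3 := hune (i + 1) (k - 2) (by omega) (by omega)
        apply h3
        rw [← e1, e2]
        rw [show i + k + (g - 1) = i + 1 + (k - 2) + g by omega, hCy.per]
      · have h3 := hune (i + 1) k (by omega) (by omega)
        apply h3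
        rw [← e1, e2]
        congr 1; omega
      · exact hne _ _ (e1.symm.trans e2)
      · exact hne _ _ (e2.symm.trans e1)
      · exact hne _ _ (e2.symm.trans e1)
      · exact hpne i k (by omega) (by omega) (e1.symm.trans e2)
  have hN2 : ∀ i k, 2 ≤ k → k + 2 ≤ g → ¬ (sq G).Adj (p i) (u (i + k)) := by
    intro i k hk1 hk2 hadj
    rcases hadj.2 with h | ⟨c, h1, h2⟩
    · exact hpne i k (by omega) (by omega) (hpnb _ _ h.symm)
    · rcases nbr (i + k) c h2.symm with e | e | e
      · rw [e] at h1
        have h3 := hpnb _ _ h1.symm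
        have h4 := hpne i (k - 1) (by omega) (by omega)
        apply h4
        rw [h3]
        rw [show i + k + (g - 1) = i + (k - 1) + g by omega, hpp]
      · rw [e] at h1
        have h3 := hpnb _ _ h1.symm
        have h4 := hpne i (k + 1) (by omega) (by omega)
        apply h4
        rw [h3]
        congr 1
      · rw [e] at h1
        exact (hclp i k (by omega) (by omega)).2 ⟨hpne i k (by omega) (by omega), Or.inl h1⟩
  have hN3 : ∀ i j, ¬ (sq G).Adj (p i) (p j) := by
    intro i j hadj
    rw [← BIG_per g p hpp i, ← BIG_per g p hpp j] at hadj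
    have hi : i % g < g := Nat.mod_lt _ (by omega)
    have hj : j % g < g := Nat.mod_lt _ (by omega)
    rcases lt_trichotomy (i % g) (j % g) with h1 | h1 | h1
    · have h2 := (hclp (i % g) (j % g - i % g) (by omega) (by omega)).2
      rw [show i % g + (j % g - i % g) = j % g by omega] at h2
      exact h2 hadj
    · rw [h1] at hadj
      exact (sq G).loopless.irrefl _ hadj
    · have h2 := (hclp (j % g) (i % g - j % g) (by omega) (by omega)).2
      rw [show j % g + (i % g - j % g) = i % g by omega] at h2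
      exact h2 hadj.symm
  have hPc := hABH V (sq G) g u p (by omega) hCy.per hpp hCy.inj hpinj hne hpos hN1 hN2 hN3
  have hPc2 := hEXT V G hconn ((Finset.range g).image u ∪ (Finset.range g).image p) ⟨u 0, by
      apply Finset.mem_union_left
      exact Finset.mem_image.2 ⟨0, Finset.mem_range.2 (by omega), rfl⟩⟩ (by
      intro x hx
      rcases Finset.mem_union.1 hx with h | h
      · obtain ⟨i, hi, rfl⟩ := Finset.mem_image.1 h
        exact ⟨p i, Finset.mem_union_right _ (Finset.mem_image.2 ⟨i, hi, rfl⟩), hup i⟩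
      · obtain ⟨i, hi, rfl⟩ := Finset.mem_image.1 h
        exact ⟨u i, Finset.mem_union_left _ (Finset.mem_image.2 ⟨i, hi, rfl⟩), (hup i).symm⟩) _ hPc
  refine hGOA V G _ ?_ hPc2
  intro x
  have h1 := hDG9 V G (fun y => le_of_eq (hCub y)) x
  simpa using h1

end Pool.Agent.helper62.DP8
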